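import Pool.Agent.Q120.FA.Stm5
import Pool.Agent.Q241.SPL.MW

/-!
# Project FA, job W7: Franel's integral is large for all large `N` if RH or simplicity fails
-/

set_option autoImplicit false
set_option linter.all false

namespace Pool.Agent.Q149.FA.W7

open Pool.Agent.Q120.FA MeasureTheory Filter Topology Set

/-- the integrand -/
noncomputable def F (u : ℝ) : ℝ := (Mr u / u) ^ 2

theorem meas_Mr : Measurable Mr := by
  have h : Mr = (fun n : ℕ => ∑ k ∈ Finset.Icc 1 n, ((ArithmeticFunction.moebius k : ℤ) : ℝ)) ∘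
      (fun x : ℝ => ⌊x⌋₊) := rfl
  rw [h]
  exact measurable_from_nat.comp Nat.measurable_floor

theorem Mr_le {x : ℝ} (hx : 0 ≤ x) : |Mr x| ≤ x := by
  unfold Mr
  refine (Finset.abs_sum_le_sum_abs _ _).trans ?_
  have h1 : ∀ n ∈ Finset.Icc 1 ⌊x⌋₊, |((ArithmeticFunction.moebius n : ℤ) : ℝ)| ≤ 1 := by
    intro n _
    have := ArithmeticFunction.abs_moebius_le_one (n := n)
    exact_mod_cast this
  refine (Finset.sum_le_sum h1).trans ?_
  rw [Finset.sum_const, Nat.card_Icc, nsmul_eq_mul, mul_one, Nat.add_sub_cancel]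
  exact Nat.floor_le hx

theorem bdd_int {G : ℝ → ℝ} (hG : Measurable G) (h : ∀ u : ℝ, 1 ≤ u → |G u| ≤ 1) {a b : ℝ}
    (ha : 1 ≤ a) (hb : 1 ≤ b) : IntervalIntegrable G volume a b := by
  refine (intervalIntegrable_const (c := (1 : ℝ)) (μ := volume) (a := a) (b := b)).mono_fun'
    hG.aestronglyMeasurable ?_
  refine (ae_restrict_iff' measurableSet_uIoc).2 (Eventually.of_forall fun u hu => ?_)
  show |G u| ≤ 1
  refine h u ?_
  rw [uIoc, mem_Ioc] at hu
  exact (le_min ha hb).trans hu.1.le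

theorem meas_F : Measurable F := (meas_Mr.div measurable_id).pow_const 2

theorem F_nonneg (u : ℝ) : 0 ≤ F u := sq_nonneg _

theorem F_le {u : ℝ} (hu : 1 ≤ u) : |F u| ≤ 1 := by
  rw [abs_of_nonneg (F_nonneg u)]
  unfold F
  have h0 : 0 < u := by linarith
  rw [div_pow, div_le_one (by positivity), ← sq_abs]
  exact pow_le_pow_left₀ (abs_nonneg _) (Mr_le h0.le) 2

theorem F_int {a b : ℝ} (ha : 1 ≤ a) (hb : 1 ≤ b) : IntervalIntegrable F volume a b :=
  bdd_int meas_F (fun _ hu => F_le hu) ha hb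

theorem log_sq_ev (r : ℝ) (hr : 0 < r) : ∀ᶠ x : ℝ in atTop, Real.log x ^ 2 ≤ x ^ r := by
  have h4 := isLittleO_log_rpow_atTop (r := r / 2) (by linarith)
  filter_upwards [h4.bound (show (0:ℝ) < 1 by norm_num), eventually_ge_atTop 1] with y hy hy1
  have h0 : 0 < y := by linarith
  rw [one_mul, Real.norm_eq_abs, Real.norm_eq_abs, abs_of_nonneg (Real.log_nonneg hy1),
    abs_of_nonneg (Real.rpow_nonneg h0.le _)] at hy
  calc Real.log y ^ 2 ≤ (y ^ (r / 2)) ^ 2 := pow_le_pow_left₀ (Real.log_nonneg hy1) hy 2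
    _ = y ^ r := by
        rw [← Real.rpow_natCast, ← Real.rpow_mul h0.le]
        congr 1
        push_cast
        ring

theorem betw : Q241SPL.Between 0 1 Mr :=
  ⟨meas_Mr, fun x _ => ⟨x, x, by simp, by simp, by
    change |Mr x - Mr x| ≤ |Mr x - Mr x|
    exact le_rfl⟩⟩

/-- the integral over a window -/
theorem win (h : ∃ ρ ∈ NTZ, ρ.re ≠ 1 / 2 ∨ deriv riemannZeta ρ = 0) :
    ∃ c : ℝ, 0 < c ∧ ∀ᶠ x : ℝ in atTop, c * Real.log x ^ 2 ≤ ∫ u in x..(x * Real.log x), F u := by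
  have key : ∃ c : ℝ, 0 < c ∧ ∀ᶠ x : ℝ in atTop, c * Real.log x ^ 2 ≤
      ∫ y in x..(x * Real.log x), (max (1 * Mr y) 0 / y) ^ 2 := by
    have hfar : ∀ ρ : ℂ, ρ ∈ Q241SPL.Zer → 1 / 2 < ρ.re → ∃ c : ℝ, 0 < c ∧ ∀ᶠ x : ℝ in atTop,
        c * Real.log x ^ 2 ≤ ∫ y in x..(x * Real.log x), (max (1 * Mr y) 0 / y) ^ 2 := by
      intro ρ hρ hre
      obtain ⟨c, hc, h1⟩ := betw.signs le_rfl zero_lt_one hρ
      refine ⟨c, hc, ?_⟩
      filter_upwards [h1, log_sq_ev (2 * ρ.re - 1) (by linarith)] with x hx hl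
      exact (mul_le_mul_of_nonneg_left hl hc.le).trans (hx 1 (Or.inl rfl))
    obtain ⟨ρ, hρ, hor⟩ := h
    have hρZ : ρ ∈ Q241SPL.Zer := hρ
    rcases lt_trichotomy ρ.re (1 / 2) with h1 | h1 | h1
    · refine hfar (1 - ρ) (Q241SPL.Zer_refl hρZ) ?_
      rw [Complex.sub_re, Complex.one_re]
      linarith
    · have hd : deriv riemannZeta ρ = 0 := hor.resolve_left (fun h2 => h2 h1)
      obtain ⟨c, hc, h2⟩ := betw.signs_multiple le_rfl zero_lt_one hρZ hd
      refine ⟨c, hc, ?_⟩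
      filter_upwards [h2] with x hx
      have h3 := hx 1 (Or.inl rfl)
      rw [h1] at h3
      have h4 : (2 * (1 / 2 : ℝ) - 1) = 0 := by norm_num
      rw [h4, Real.rpow_zero, mul_one] at h3
      exact h3
    · exact hfar ρ hρZ h1
  obtain ⟨c, hc, h1⟩ := key
  refine ⟨c, hc, ?_⟩
  filter_upwards [h1, eventually_ge_atTop (Real.exp 1)] with x hx hxe
  refine hx.trans ?_
  have hx1 : 1 ≤ x := (Real.one_le_exp zero_le_one).trans hxe
  have hx0 : 0 < x := by linarith
  have hlog : 1 ≤ Real.log x := by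
    rw [Real.le_log_iff_exp_le hx0]
    exact hxe
  have hle : x ≤ x * Real.log x := le_mul_of_one_le_right hx0.le hlog
  have hmG : Measurable fun y : ℝ => (max (1 * Mr y) 0 / y) ^ 2 :=
    (((meas_Mr.const_mul 1).max measurable_const).div measurable_id).pow_const 2
  have hpt : ∀ y : ℝ, (max (1 * Mr y) 0 / y) ^ 2 ≤ F y := by
    intro y
    unfold F
    rw [div_pow, div_pow, one_mul]
    refine div_le_div_of_nonneg_right ?_ (sq_nonneg y)
    rcases le_total (Mr y) 0 with h2 | h2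
    · rw [max_eq_right h2]
      nlinarith
    · rw [max_eq_left h2]
  refine intervalIntegral.integral_mono_on hle (bdd_int hmG (fun u hu => ?_) hx1 (hx1.trans hle))
    (F_int hx1 (hx1.trans hle)) (fun y _ => hpt y)
  rw [abs_of_nonneg (sq_nonneg _)]
  exact (hpt u).trans ((le_abs_self _).trans (F_le hu))

/-- many windows -/
theorem chain {c : ℝ} (hc : 0 < c)
    (hwin : ∀ᶠ x : ℝ in atTop, c * Real.log x ^ 2 ≤ ∫ u in x..(x * Real.log x), F u) :
    ∀ᶠ X : ℝ in atTop, c / 16 * (Real.log X ^ 3 / Real.log (Real.log X)) ≤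
      ∫ u in (1 : ℝ)..X, F u := by
  obtain ⟨x1, hx1⟩ := eventually_atTop.1 hwin
  have hL1 : ∀ᶠ L : ℝ in atTop, 4 * Real.log L ≤ L := by
    have h4 := Real.isLittleO_log_id_atTop
    filter_upwards [h4.bound (show (0:ℝ) < 1 / 4 by norm_num), eventually_ge_atTop 1] with y hy hy1
    simp only [id_eq] at hy
    rw [Real.norm_eq_abs, Real.norm_eq_abs, abs_of_nonneg (Real.log_nonneg hy1),
      abs_of_nonneg (by linarith : (0 : ℝ) ≤ y)] at hy
    linarith
  have hsq : Tendsto (fun X : ℝ => √X) atTop atTop := Real.tendsto_sqrt_atTop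
  filter_upwards [eventually_ge_atTop 1, hsq.eventually_ge_atTop x1, hsq.eventually_ge_atTop 1,
    Real.tendsto_log_atTop.eventually hL1, Real.tendsto_log_atTop.eventually_ge_atTop 2,
    Real.tendsto_log_atTop.eventually_ge_atTop (Real.exp 1)] with X hX hs1 hs2 hL4 hL2 hLe
  set L : ℝ := Real.log X with hLdef
  have hX0 : 0 < X := by linarith
  have hL0 : 0 < L := by linarith
  have hLone : 1 ≤ L := by linarith
  set ℓ : ℝ := Real.log L with hℓ
  have hℓ1 : 1 ≤ ℓ := by
    rw [hℓ, Real.le_log_iff_exp_le hL0]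
    exact hLe
  have hℓ0 : 0 < ℓ := by linarith
  set k : ℕ := ⌊L / (2 * ℓ)⌋₊ with hk
  have hk1 : (k : ℝ) ≤ L / (2 * ℓ) := Nat.floor_le (by positivity)
  have hk2 : L / (2 * ℓ) < k + 1 := Nat.lt_floor_add_one _
  have hk3 : (k : ℝ) * (2 * ℓ) ≤ L := by
    rwa [le_div_iff₀ (by positivity)] at hk1
  have hk4 : L / (4 * ℓ) ≤ k := by
    have h1 : 1 ≤ L / (4 * ℓ) := by
      rw [one_le_div (by positivity)]
      exact hL4
    have h2 : L / (2 * ℓ) = L / (4 * ℓ) + L / (4 * ℓ) := by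
      field_simp
      norm_num
    linarith
  let p : ℕ → ℝ := fun j => √X * L ^ j
  have hLj : ∀ j : ℕ, 1 ≤ L ^ j := fun j => one_le_pow₀ hLone
  have hpS : ∀ j, √X ≤ p j := fun j => le_mul_of_one_le_right (by positivity) (hLj j)
  have hp1 : ∀ j, 1 ≤ p j := fun j => hs2.trans (hpS j)
  have hpk : p k ≤ X := by
    have h1 : L ^ k ≤ √X := by
      rw [← Real.log_le_log_iff (by positivity) (by positivity), Real.log_pow,
        Real.log_sqrt hX0.le]
      change (k : ℝ) * ℓ ≤ L / 2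
      linarith
    calc p k = √X * L ^ k := rfl
      _ ≤ √X * √X := mul_le_mul_of_nonneg_left h1 (Real.sqrt_nonneg X)
      _ = X := Real.mul_self_sqrt hX0.le
  have hpm : ∀ i j : ℕ, i ≤ j → p i ≤ p j := fun i j hij =>
    mul_le_mul_of_nonneg_left (pow_le_pow_right₀ hLone hij) (Real.sqrt_nonneg X)
  have hstep : ∀ j, j < k → c * (L / 2) ^ 2 ≤ ∫ u in (p j)..(p (j + 1)), F u := by
    intro j hj
    have hpj0 : 0 < p j := by linarith [hp1 j]
    have hlog1 : Real.log (p j) ≤ L := by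
      rw [hLdef]
      exact Real.log_le_log hpj0 ((hpm j k hj.le).trans hpk)
    have hlog2 : L / 2 ≤ Real.log (p j) := by
      rw [hLdef, ← Real.log_sqrt hX0.le]
      exact Real.log_le_log (by linarith) (hpS j)
    have h1 : p j ≤ p j * Real.log (p j) := le_mul_of_one_le_right hpj0.le (by linarith)
    have h2 : p j * Real.log (p j) ≤ p (j + 1) := by
      have h3 : p (j + 1) = p j * L := by
        change √X * L ^ (j + 1) = √X * L ^ j * L
        ring
      rw [h3]
      exact mul_le_mul_of_nonneg_left hlog1 hpj0.le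
    have h4 : c * (L / 2) ^ 2 ≤ c * Real.log (p j) ^ 2 :=
      mul_le_mul_of_nonneg_left (pow_le_pow_left₀ (by positivity) hlog2 2) hc.le
    have h5 := hx1 (p j) (hs1.trans (hpS j))
    refine (h4.trans h5).trans ?_
    exact intervalIntegral.integral_mono_interval le_rfl h1 h2
      (Eventually.of_forall fun u => F_nonneg u) (F_int (hp1 j) (hp1 (j + 1)))
  have hsum : ∑ j ∈ Finset.range k, ∫ u in (p j)..(p (j + 1)), F u = ∫ u in (p 0)..(p k), F u :=
    intervalIntegral.sum_integral_adjacent_intervals fun j _ => F_int (hp1 j) (hp1 (j + 1))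
  have hlow : (k : ℝ) * (c * (L / 2) ^ 2) ≤ ∫ u in (p 0)..(p k), F u := by
    rw [← hsum]
    calc (k : ℝ) * (c * (L / 2) ^ 2) = ∑ j ∈ Finset.range k, c * (L / 2) ^ 2 := by
          rw [Finset.sum_const, Finset.card_range, nsmul_eq_mul]
      _ ≤ _ := Finset.sum_le_sum fun j hj => hstep j (Finset.mem_range.1 hj)
  have hbig : ∫ u in (p 0)..(p k), F u ≤ ∫ u in (1 : ℝ)..X, F u :=
    intervalIntegral.integral_mono_interval (hp1 0) (hpm 0 k (Nat.zero_le k)) hpk
      (Eventually.of_forall fun u => F_nonneg u) (F_int le_rfl hX)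
  refine le_trans ?_ (hlow.trans hbig)
  calc c / 16 * (L ^ 3 / ℓ) = L / (4 * ℓ) * (c * (L / 2) ^ 2) := by
        field_simp
        norm_num
    _ ≤ k * (c * (L / 2) ^ 2) := mul_le_mul_of_nonneg_right hk4 (by positivity)

/-- **JOB W7** -/
theorem t_W7 (w8 : J_W8) (w9 : J_W9) : J_W7 := by
  intro h
  obtain ⟨c, hc, hwin⟩ := win h
  have hch := chain hc hwin
  obtain ⟨C, hC, h8⟩ := w8
  obtain ⟨c9, hc9, h9⟩ := w9
  refine ⟨c9 * (1 / C) * (c / 16) * (1 / 64), by positivity, ?_⟩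
  have hX : Tendsto (fun N : ℕ => √(N : ℝ) / 2) atTop atTop :=
    (Real.tendsto_sqrt_atTop.comp tendsto_natCast_atTop_atTop).atTop_div_const (by norm_num)
  have hlN : Tendsto (fun N : ℕ => Real.log (N : ℝ)) atTop atTop :=
    Real.tendsto_log_atTop.comp tendsto_natCast_atTop_atTop
  filter_upwards [h9, hX.eventually hch, hX.eventually_ge_atTop 1,
    hlN.eventually_ge_atTop (4 * Real.log 2), hlN.eventually_ge_atTop (4 * Real.exp 1),
    eventually_ge_atTop 1] with N h9N hchN hX1 hl1 hl2 hN1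
  set X : ℝ := √(N : ℝ) / 2 with hXdef
  have hNr : (1 : ℝ) ≤ N := by exact_mod_cast hN1
  have hN0 : (0 : ℝ) < N := by linarith
  have hlogX : Real.log X = Real.log N / 2 - Real.log 2 := by
    rw [hXdef, Real.log_div (by positivity) (by norm_num), Real.log_sqrt hN0.le]
  have hlog2 : 0 < Real.log 2 := Real.log_pos (by norm_num)
  set LN : ℝ := Real.log N with hLN
  have hLX1 : LN / 4 ≤ Real.log X := by rw [hlogX]; linarith
  have hLX2 : Real.log X ≤ LN := by
    have h1 : 0 ≤ LN := Real.log_nonneg hNr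
    rw [hlogX]; linarith
  have he : Real.exp 1 ≤ Real.log X := by linarith
  have hlX0 : 0 < Real.log X := lt_of_lt_of_le (Real.exp_pos 1) he
  have hll1 : 1 ≤ Real.log (Real.log X) := by
    rw [Real.le_log_iff_exp_le hlX0]
    exact he
  have hll2 : Real.log (Real.log X) ≤ Real.log LN := Real.log_le_log hlX0 hLX2
  have hLN0 : 0 < LN := hlX0.trans_le hLX2
  have h3 : 1 / 64 * (LN ^ 3 / Real.log LN) ≤ Real.log X ^ 3 / Real.log (Real.log X) := by
    have h4 : (LN / 4) ^ 3 ≤ Real.log X ^ 3 := pow_le_pow_left₀ (by positivity) hLX1 3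
    calc 1 / 64 * (LN ^ 3 / Real.log LN) = (LN / 4) ^ 3 / Real.log LN := by ring
      _ ≤ Real.log X ^ 3 / Real.log LN :=
          div_le_div_of_nonneg_right h4 (by linarith)
      _ ≤ Real.log X ^ 3 / Real.log (Real.log X) :=
          div_le_div_of_nonneg_left (by positivity) (by linarith) hll2
  have h5 : c / 16 * (Real.log X ^ 3 / Real.log (Real.log X)) ≤ C * H2 X :=
    hchN.trans (h8 X hX1)
  have h6 : 1 / C * (c / 16 * (1 / 64 * (LN ^ 3 / Real.log LN))) ≤ H2 X := by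
    have h7 : c / 16 * (1 / 64 * (LN ^ 3 / Real.log LN)) ≤ C * H2 X :=
      (mul_le_mul_of_nonneg_left h3 (by positivity)).trans h5
    rw [one_div, inv_mul_le_iff₀ hC]
    exact h7
  calc c9 * (1 / C) * (c / 16) * (1 / 64) * (N * LN ^ 3 / Real.log LN)
      = c9 * (N * (1 / C * (c / 16 * (1 / 64 * (LN ^ 3 / Real.log LN))))) := by ring
    _ ≤ c9 * (N * H2 X) :=
        mul_le_mul_of_nonneg_left (mul_le_mul_of_nonneg_left h6 hN0.le) hc9.le
    _ ≤ FI N := h9N

end Pool.Agent.Q149.FA.W7
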